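import Mathlib
import Pool.Agent.H.MP_4af00a_nt.B
import Pool.Agent.H.MP_4af00a_nt.Dm

namespace Pool.Agent.Results.MP_4af00a_nt.Both

open Finset

/-- `s n = sum_k C(n,k)^2 C(2k,k) C(2(n-k),n-k)` -/
def s (n : ℕ) : ℕ :=
  ∑ k ∈ range (n + 1), n.choose k ^ 2 * (2 * k).choose k * (2 * (n - k)).choose (n - k)

/-- the Fermat quotient `(2^(p-1) - 1) / p` -/
def q (p : ℕ) : ℚ := (2 ^ (p - 1) - 1) / p

/-- the normalised sum `a_m` -/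
def a (m : ℕ) : ℚ := 1 / (2 * (m : ℚ) ^ 3 * ((m : ℚ) - 1)) *
  ∑ n ∈ range m, (3 * (n : ℚ) ^ 2 + n) * 16 ^ (m - 1 - n) * (s n : ℚ)

lemma s_eq (n : ℕ) : (s n : ℚ) = Pool.Agent.H.MP_4af00a_nt.D n := by
  rw [Pool.Agent.H.MP_4af00a_nt.D_eq, s]; push_cast; rfl

theorem result :
    (∀ p : ℕ, p.Prime → 3 < p → ∃ r : ℚ, ¬ p ∣ r.den ∧
      ∑ n ∈ range p, (3 * (n : ℚ) ^ 2 + n) / 16 ^ n * (s n : ℚ) -
        (-4 * (p : ℚ) ^ 4 * q p + 6 * (p : ℚ) ^ 5 * q p ^ 2) = (p : ℚ) ^ 6 * r) ∧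
    (∀ m : ℕ, 1 < m → ∃ z : ℤ, a m = z ∧ (Odd z ↔ ∃ j : ℕ, m = 2 ^ j)) := by
  constructor
  · intro p hp h3
    obtain ⟨r, hr, e⟩ := Pool.Agent.H.MP_4af00a_nt.main1 hp h3
    refine ⟨r, hr, ?_⟩
    simp only [s_eq, q]
    exact e
  · intro m hm
    obtain ⟨z, hz, h⟩ := Pool.Agent.H.MP_4af00a_nt.sum_t m hm
    refine ⟨z, ?_, h⟩
    obtain ⟨n, rfl⟩ : ∃ n, m = n + 1 := ⟨m - 1, by omega⟩
    rw [← hz, ← Pool.Agent.H.MP_4af00a_nt.a_eq n (by omega), a]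
    simp only [s_eq]

end Pool.Agent.Results.MP_4af00a_nt.Both
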